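import Mathlib
import Pool.Agent.Q270.LD.B2

/-!
# The Lindelof hypothesis and the number of zeros of zeta in a disc of fixed radius

For every fixed `R > 0`, the Lindelof hypothesis holds if and only if the number of zeros of `ζ`, counted with
multiplicity, in the open disc of centre `1/2 + iT` and radius `R` is at least `(R / π - o(1)) log T` as
`T → ∞`, and if and only if this number is asymptotic to `(R / π) log T`.  The constant `R / π` is the
largest one for which such a lower bound can hold.  If the lower bound holds with `R / π - η` for a small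
enough `η = η(R, κ) > 0`, then `ζ(1/2 + it) = O(t^κ)`.

The same is proved for all regions `|Im s - T| < r(Re s - 1/2)`, where the function `r` is continuous at `0`
and has a strict maximum there, in the sense that `r ≤ r 0 - η` outside of every neighbourhood of `0`.

Idea: an excess of zeros off the line can only be seen by a region which is thinner there as a deficiency, on
average over the heights; the average number of zeros near `T`, weighted by a Gaussian of width `A`, is
given up to `O(log T / A)` by the explicit formula, and zeros off the line are counted by it with weights close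
to those of zeros on the line.  Few zeros off the line give the Lindelof hypothesis (Backlund).
-/

set_option autoImplicit false

open Filter Topology

namespace Pool.Agent.Results.MP_4e5e8a_nt.DiscCounts

/-- The Lindelof hypothesis. -/
def Lindelof : Prop := ∀ ε : ℝ, 0 < ε → ∃ C : ℝ, ∀ t : ℝ,
  ‖riemannZeta (1 / 2 + t * Complex.I)‖ ≤ C * (1 + |t|) ^ ε

/-- `r` is positive at `0`, continuous at `0`, and at most `r 0 - η` outside of every neighbourhood of `0`, with
`η > 0` depending on the neighbourhood. -/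
structure Profile (r : ℝ → ℝ) : Prop where
  pos : 0 < r 0
  cont : ContinuousAt r 0
  gap : ∀ δ : ℝ, 0 < δ → ∃ η : ℝ, 0 < η ∧ ∀ x : ℝ, δ ≤ |x| → r x ≤ r 0 - η

/-- The number of zeros `s` of `ζ` with `|Im s - T| < r (Re s - 1/2)`, counted with multiplicity. -/
noncomputable def zeros (r : ℝ → ℝ) (T : ℝ) : ℕ :=
  ∑ᶠ s ∈ {s : ℂ | riemannZeta s = 0 ∧ |s.im - T| < r (s.re - 1 / 2)}, analyticOrderNatAt riemannZeta s

/-- The number of zeros of `ζ` in the open disc of centre `1/2 + iT` and radius `R`, counted with multiplicity. -/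
noncomputable def zerosDisc (R T : ℝ) : ℕ :=
  ∑ᶠ s ∈ {s : ℂ | riemannZeta s = 0 ∧ ‖s - (1 / 2 + T * Complex.I)‖ < R}, analyticOrderNatAt riemannZeta s

/-- The four statements about a counting function `N` of a region of maximal half-height `c`. -/
def Law (N : ℝ → ℕ) (c : ℝ) : Prop :=
  (Lindelof ↔ ∀ ε : ℝ, 0 < ε → ∀ᶠ T : ℝ in atTop, (c / Real.pi - ε) * Real.log T ≤ (N T : ℝ)) ∧
  (Lindelof ↔ Tendsto (fun T : ℝ => (N T : ℝ) / Real.log T) atTop (𝓝 (c / Real.pi))) ∧
  (∀ κ : ℝ, 0 < κ → ∃ η : ℝ, 0 < η ∧
    ((∀ᶠ T : ℝ in atTop, (c / Real.pi - η) * Real.log T ≤ (N T : ℝ)) →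
      ∃ C : ℝ, ∀ t : ℝ, ‖riemannZeta (1 / 2 + t * Complex.I)‖ ≤ C * (1 + |t|) ^ κ)) ∧
  (∀ ε : ℝ, 0 < ε → ¬ ∀ᶠ T : ℝ in atTop, (c / Real.pi + ε) * Real.log T ≤ (N T : ℝ))

/-- For the discs of any fixed radius, and for all regions with a profile. -/
theorem result :
    (∀ R : ℝ, 0 < R → Law (zerosDisc R) R) ∧ (∀ r : ℝ → ℝ, Profile r → Law (zeros r) (r 0)) := by
  have h1 : ∀ r : ℝ → ℝ, Profile r → Law (zeros r) (r 0) := by
    intro r hr
    have hr' : Q270LD.Prof r := ⟨hr.pos, hr.cont, hr.gap⟩
    obtain ⟨m1, m2, m3⟩ := Q270LD.main hr'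
    refine ⟨m1, ⟨fun h => Q270LD.limit h hr', fun h => m1.2 fun ε hε => ?_⟩, m2, m3⟩
    have h2 := h.eventually (lt_mem_nhds (show r 0 / Real.pi - ε < r 0 / Real.pi by linarith))
    filter_upwards [h2, eventually_gt_atTop 1] with T h3 h4
    have hL : 0 < Real.log T := Real.log_pos h4
    exact ((lt_div_iff₀ hL).1 h3).le
  refine ⟨fun R hR => ?_, h1⟩
  have h2 := h1 _ ⟨(Q270LD.disc_prof hR).pos, (Q270LD.disc_prof hR).cont, (Q270LD.disc_prof hR).gap⟩
  have h3 : zeros (fun x => Real.sqrt (R ^ 2 - x ^ 2)) = zerosDisc R := by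
    funext T
    unfold zeros zerosDisc
    have : {s : ℂ | riemannZeta s = 0 ∧ |s.im - T| < Real.sqrt (R ^ 2 - (s.re - 1 / 2) ^ 2)} =
        {s : ℂ | riemannZeta s = 0 ∧ ‖s - (1 / 2 + T * Complex.I)‖ < R} := by
      ext s
      exact and_congr_right fun _ => Q270LD.disc_set hR T s
    rw [this]
  have h4 : Real.sqrt (R ^ 2 - 0 ^ 2) = R := by
    rw [zero_pow (by norm_num), sub_zero, Real.sqrt_sq hR.le]
  rw [h3] at h2
  simp only [h4] at h2
  exact h2

end Pool.Agent.Results.MP_4e5e8a_nt.DiscCounts
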