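import Pool.Agent.Q97.PA.Z2

/-!
# The Lindelöf hypothesis and local approximation by exponential polynomials with few terms

An exponential polynomial of complexity at most `x` is a sum `∑ p_a(t) exp(a t)` over finitely many complex `a`,
`|a| ≤ x`, with polynomials `p_a`, where the sum of all `deg p_a + 1` is at most `x`.  Examples: polynomials of degree
at most `x - 1`, and Dirichlet polynomials with at most `x` terms `c_k k^(-it)`, `log k ≤ x`, the `c_k` being arbitrary.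

Theorem.  Let `0 < h ≤ 1`, and let `T` be large.

(1) The Lindelöf hypothesis is equivalent to: for each `ε > 0` and all large `T`, `ζ(1/2 + it)` is approximated for
`|t - T| ≤ h` by an exponential polynomial of complexity at most `ε log T` up to an error `T^ε`.

(2) Let `n(T) = o(log T)`.  The Lindelöf hypothesis is equivalent to `|ζ^(n)(1/2 + it)| ≤ n! T^ε` for `|t - T| ≤ 1`,
`n = n(T)`, for each `ε > 0` and all large `T`.

(3) Local form: for each `ε > 0` there are `ν, R > 0` such that, if for each `y` with `|y - T| ≤ R` an exponential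
polynomial of complexity at most `ν log T` approximates `ζ(1/2 + it)` for `|t - y| ≤ h` up to an error `T^ν`, or some
derivative of `ζ` of order `n ≤ ν log T` is at most `n! h^(-n) T^ν` there, then `|ζ(1/2 + iT)| ≤ T^ε`; and if
`|ζ(1/2 + iy)| ≤ T^ν` for `|y - T| ≤ R`, then `|ζ^(n)(1/2 + it)| ≤ n! T^ε` for all `n ≤ ν log T` and `|t - T| ≤ 1`.

(4) Unconditionally, high precision needs a complexity of the order `log T`: polynomials of degree `C log T`
approximate `ζ(1/2 + it)` for `|t - T| ≤ 1` up to an error `T^(-K)` (the derivatives of order at least `C log T` are at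
most `n! T^(-K)`), but exponential polynomials of complexity `c log T` do not: for some `K`, `c > 0` at all heights, and
for each `K > 0`, with some `c > 0`, near each height.

Idea: let the exponential polynomial `g` be near `ζ` on the segment.  The difference is at most as large as `ζ` and `g`
in a rectangle, and small on the segment; by the two constants theorem it is smaller near `Re s = 13/8`, where `ζ` is
bounded.  So `g` is smaller there, hence in the whole rectangle, as its complexity is small (a bound of Turán's type),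
and then `ζ` is smaller on the segment.  This is repeated, starting from the trivial bound.  For (4): to the left of
the strip `ζ` has the size `T^(1/2 - Re s)`, much larger than `g`; if the error on the segment were too small, the two
constants theorem would give a contradiction there.
-/

set_option autoImplicit false

open Complex Polynomial

namespace Pool.Agent.Results.MP_4e5e8a_nt.ExponentialPolynomials

/-- The Lindelöf hypothesis (Q1). -/
def Lindelof : Prop := ∀ ε : ℝ, 0 < ε → ∃ C : ℝ, ∀ t : ℝ,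
  ‖riemannZeta (1 / 2 + (t : ℂ) * I)‖ ≤ C * (1 + |t|) ^ ε

/-- An exponential polynomial `∑ p_a(t) exp(a t)`, the sum over `a` in a finite set `S`, with `|a| ≤ x` and
`∑ (deg p_a + 1) ≤ x`, approximates `ζ(1/2 + it)` for `|t - T| ≤ h`, up to an error `y`. -/
def Approx (T h x y : ℝ) : Prop :=
  ∃ (S : Finset ℂ) (p : ℂ → ℂ[X]), ∑ a ∈ S, (((p a).natDegree : ℝ) + 1) ≤ x ∧ (∀ a ∈ S, ‖a‖ ≤ x) ∧
    ∀ t : ℝ, |t - T| ≤ h → ‖riemannZeta (1 / 2 + (t : ℂ) * I) - ∑ a ∈ S, (p a).eval (t : ℂ) * cexp (a * t)‖ ≤ y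

/-- The `n`-th derivative of `ζ(s)` is at most `n! h^(-n) x` for `s = 1/2 + it`, `|t - T| ≤ h`. -/
def DerBound (T h : ℝ) (n : ℕ) (x : ℝ) : Prop :=
  ∀ t : ℝ, |t - T| ≤ h → ‖iteratedDeriv n riemannZeta (1 / 2 + (t : ℂ) * I)‖ ≤ n.factorial / h ^ n * x

open Pool.Agent.Q97.PA

lemma pt' (t : ℝ) : (1 / 2 : ℂ) + (t : ℂ) * I = (⟨1 / 2, t⟩ : ℂ) := by
  apply Complex.ext <;> simp

lemma rpow_exp {x : ℝ} (hx : 0 < x) (a : ℝ) : x ^ a = Real.exp (a * Real.log x) := by
  rw [Real.rpow_def_of_pos hx, mul_comm]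

/-- Q1 in terms of large heights -/
lemma lin_iff : Lindelof ↔ ∀ κ : ℝ, 0 < κ → ∃ T₀ : ℝ, ∀ T : ℝ, T₀ ≤ T →
    ‖riemannZeta (⟨1 / 2, T⟩ : ℂ)‖ ≤ Real.exp (κ * Real.log T) := by
  constructor
  · intro h κ hκ
    obtain ⟨C, hC⟩ := h (κ / 2) (by positivity)
    obtain ⟨b, hb⟩ : ∃ b : ℝ, b = Real.log (max C 1) := ⟨_, rfl⟩
    have hb0 : 0 ≤ b := by rw [hb]; exact Real.log_nonneg (le_max_right _ _)
    refine ⟨Real.exp ((b + κ) * (2 / κ)), fun T hT => ?_⟩
    have hlog : (b + κ) * (2 / κ) ≤ Real.log T := by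
      have h1 := Real.log_le_log (Real.exp_pos _) hT
      rwa [Real.log_exp] at h1
    have hT1 : 1 ≤ T := by
      refine le_trans ?_ hT
      exact Real.one_le_exp (by positivity)
    have hT0 : 0 < T := by linarith
    have hlog' : b + κ ≤ κ / 2 * Real.log T := by
      have h1 : κ / 2 * ((b + κ) * (2 / κ)) ≤ κ / 2 * Real.log T := mul_le_mul_of_nonneg_left hlog (by positivity)
      have e : κ / 2 * ((b + κ) * (2 / κ)) = b + κ := by field_simp
      linarith
    have h1 := hC T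
    rw [pt', abs_of_pos hT0] at h1
    refine h1.trans ?_
    have h2 : (1 + T) ^ (κ / 2) ≤ Real.exp (κ / 2 * (Real.log T + 1)) := by
      rw [rpow_exp (by linarith)]
      apply Real.exp_le_exp.2
      apply mul_le_mul_of_nonneg_left _ (by positivity)
      have h3 : Real.log (1 + T) ≤ Real.log (2 * T) := Real.log_le_log (by linarith) (by linarith)
      rw [Real.log_mul two_ne_zero hT0.ne'] at h3
      have := Real.log_two_lt_d9
      linarith
    calc C * (1 + T) ^ (κ / 2) ≤ max C 1 * (1 + T) ^ (κ / 2) :=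
          mul_le_mul_of_nonneg_right (le_max_left _ _) (by positivity)
      _ ≤ Real.exp b * Real.exp (κ / 2 * (Real.log T + 1)) := by
          rw [hb, Real.exp_log (lt_of_lt_of_le one_pos (le_max_right _ _))]
          exact mul_le_mul_of_nonneg_left h2 (le_trans zero_le_one (le_max_right _ _))
      _ = Real.exp (b + κ / 2 * (Real.log T + 1)) := (Real.exp_add _ _).symm
      _ ≤ _ := Real.exp_le_exp.2 (by linarith)
  · intro h ε hε
    obtain ⟨T₀, hT₀⟩ := h ε hε
    obtain ⟨Y, hY⟩ : ∃ Y : ℝ, Y = max T₀ 1 := ⟨_, rfl⟩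
    have hY0 : T₀ ≤ Y := by rw [hY]; exact le_max_left _ _
    have hY1 : 1 ≤ Y := by rw [hY]; exact le_max_right _ _
    have hcont : ContinuousOn (fun t : ℝ => ‖riemannZeta (1 / 2 + (t : ℂ) * I)‖) (Set.Icc (-Y) Y) := by
      intro t _
      have h1 : (1 / 2 : ℂ) + t * I ≠ 1 := by
        intro h2
        have := congrArg Complex.re h2
        rw [pt', one_re] at this
        norm_num at this
      have h2 : ContinuousAt (fun t : ℝ => riemannZeta (1 / 2 + t * I)) t :=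
        ContinuousAt.comp (g := riemannZeta) (f := fun t : ℝ => (1 / 2 : ℂ) + t * I)
          (differentiableAt_riemannZeta h1).continuousAt (by fun_prop)
      exact h2.norm.continuousWithinAt
    obtain ⟨M, hM⟩ := isCompact_Icc.bddAbove_image hcont
    refine ⟨max M 1, fun t => ?_⟩
    have hone : 1 ≤ (1 + |t|) ^ ε := Real.one_le_rpow (by linarith [abs_nonneg t]) hε.le
    have hM1 : 1 ≤ max M 1 := le_max_right _ _
    rcases le_total |t| Y with h1 | h1
    · have h2 : ‖riemannZeta (1 / 2 + (t : ℂ) * I)‖ ≤ M := hM ⟨t, abs_le.1 h1, rfl⟩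
      calc _ ≤ max M 1 := h2.trans (le_max_left _ _)
        _ ≤ _ := le_mul_of_one_le_right (by linarith) hone
    · have h2 : ‖riemannZeta (1 / 2 + (t : ℂ) * I)‖ = ‖riemannZeta (⟨1 / 2, |t|⟩ : ℂ)‖ := by
        rw [pt']
        rcases abs_choice t with h3 | h3
        · rw [h3]
        · have e : (⟨1 / 2, |t|⟩ : ℂ) = (starRingEnd ℂ) (⟨1 / 2, t⟩ : ℂ) := by
            rw [h3]
            apply Complex.ext <;> simp
          rw [e, riemannZeta_conj, Complex.norm_conj]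
      rw [h2]
      have h4 := hT₀ |t| (by linarith)
      have ht0 : 0 < |t| := by linarith
      have h3 : Real.exp (ε * Real.log |t|) ≤ (1 + |t|) ^ ε := by
        rw [rpow_exp (by linarith)]
        apply Real.exp_le_exp.2
        apply mul_le_mul_of_nonneg_left _ hε.le
        exact Real.log_le_log ht0 (by linarith)
      calc _ ≤ (1 + |t|) ^ ε := h4.trans h3
        _ ≤ _ := le_mul_of_one_le_left (by positivity) hM1

/-- (3), first half -/
lemma r_loc {h ε : ℝ} (hh0 : 0 < h) (hh1 : h ≤ 1) (hε : 0 < ε) : ∃ ν R T₀ : ℝ, 0 < ν ∧ 0 < R ∧ 3 ≤ T₀ ∧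
    ∀ T : ℝ, T₀ ≤ T →
      (∀ y : ℝ, |y - T| ≤ R → Approx y h (ν * Real.log T) (T ^ ν) ∨
        ∃ n : ℕ, (n : ℝ) ≤ ν * Real.log T ∧ DerBound y h n (T ^ ν)) →
      ‖riemannZeta (⟨1 / 2, T⟩ : ℂ)‖ ≤ Real.exp (ε * Real.log T) := by
  obtain ⟨ν, Y, T0, hν, hY, hT0, H⟩ := z_iter hh0 hh1 hε
  refine ⟨ν / 18, Y, max T0 (Real.exp (18 / ν)), by positivity, by linarith, hT0.trans (le_max_left _ _),
    fun T hT hp => ?_⟩
  have hTp : 0 < T := by linarith [(le_max_left _ _).trans hT]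
  have hW1 : 18 / ν ≤ Real.log T := by
    have h1 := Real.log_le_log (Real.exp_pos _) ((le_max_right _ _).trans hT)
    rwa [Real.log_exp] at h1
  have hW : 0 ≤ Real.log T := le_trans (by positivity) hW1
  rw [div_le_iff₀ hν] at hW1
  have hνW : 0 ≤ ν * Real.log T := by positivity
  refine H T ((le_max_left _ _).trans hT) fun y hy => ?_
  rcases hp y hy with ⟨S, p, hp1, hp2, hp3⟩ | ⟨n, hn1, hn2⟩
  · refine ⟨xs S p, (xs_dbl (by positivity) hp1 hp2).mono (by linarith), fun t ht => ?_⟩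
    have h1 := hp3 t ht
    rw [pt', rpow_exp hTp] at h1
    exact h1.trans (Real.exp_le_exp.2 (by linarith))
  · obtain ⟨p, hp1, hp2⟩ := zder_poly hh0 y (n := n)
      (M := ν / 18 * Real.log T) (fun t ht => by
        have h1 := hn2 t ht
        rw [pt', rpow_exp hTp] at h1
        refine h1.trans (le_of_eq ?_)
        rw [inv_pow, div_eq_mul_inv])
    have h1 : (p.natDegree : ℝ) ≤ n := by exact_mod_cast hp1
    refine ⟨fun z => p.eval z, (poly_xs p (x := (p.natDegree : ℝ) + 1) le_rfl).mono (by linarith),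
      fun t ht => (hp2 t ht).trans (Real.exp_le_exp.2 (by linarith))⟩

/-- (3), second half -/
lemma r_cau {ε : ℝ} (hε : 0 < ε) : ∃ ν R T₀ : ℝ, 0 < ν ∧ 0 < R ∧ 3 ≤ T₀ ∧ ∀ T : ℝ, T₀ ≤ T →
      (∀ y : ℝ, |y - T| ≤ R → ‖riemannZeta (⟨1 / 2, y⟩ : ℂ)‖ ≤ Real.exp (ν * Real.log T)) →
      ∀ n : ℕ, (n : ℝ) ≤ ν * Real.log T → DerBound T 1 n (T ^ ε) := by
  obtain ⟨ν, Y, T0, hν, hY, hT0, H⟩ := z_cauchy (ε := ε / 2) (by positivity)
  refine ⟨min ν (ε / 2), Y, T0, lt_min hν (by positivity), by linarith, hT0, fun T hT hl n hn t ht => ?_⟩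
  have hW : 0 ≤ Real.log T := Real.log_nonneg (by linarith)
  have h1 := H T (ε / 2) (by positivity) hT (fun u hu =>
    (hl u hu).trans (Real.exp_le_exp.2 (mul_le_mul_of_nonneg_right (min_le_right _ _) hW))) n
    (hn.trans (mul_le_mul_of_nonneg_right (min_le_left _ _) hW)) t ht
  rw [pt', one_pow, div_one, rpow_exp (by linarith)]
  have e1 : ε / 2 + ε / 2 = ε := by ring
  rw [e1] at h1
  exact h1

/-- (4), upper bounds -/
lemma r_sharp {K : ℝ} (hK : 0 < K) : ∃ C : ℝ, ∀ T : ℝ, C ≤ T → Approx T 1 (C * Real.log T) (T ^ (-K)) ∧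
      ∀ n : ℕ, C * Real.log T ≤ n → DerBound T 1 n (T ^ (-K)) := by
  obtain ⟨T0, hT0, H⟩ := z_high hK
  refine ⟨max T0 (4 * (K + 21)), fun T hT => ?_⟩
  have hT1 := (le_max_left _ _).trans hT
  have hTp : 0 < T := by linarith
  have hW1 : 1 ≤ Real.log T := by
    rw [Real.le_log_iff_exp_le hTp]
    have := Real.exp_one_lt_d9
    linarith
  obtain ⟨k1, p, k2, k3⟩ := H T hT1
  obtain ⟨W, hW⟩ : ∃ W : ℝ, W = Real.log T := ⟨_, rfl⟩
  rw [← hW] at hW1 k1 k2 k3 ⊢
  have hCm : 4 * (K + 21) * W ≤ max T0 (4 * (K + 21)) * W :=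
    mul_le_mul_of_nonneg_right (le_max_right _ _) (by linarith)
  refine ⟨⟨{0}, fun _ => p, ?_, ?_, fun t ht => ?_⟩, fun n hn t ht => ?_⟩
  · rw [Finset.sum_singleton]
    refine le_trans ?_ hCm
    linarith
  · intro a ha
    rw [Finset.mem_singleton.1 ha, norm_zero]
    refine le_trans ?_ hCm
    have : 0 ≤ W := by linarith
    positivity
  · rw [pt', rpow_exp hTp, ← hW, Finset.sum_singleton, zero_mul, Complex.exp_zero, mul_one]
    exact k3 t ht
  · rw [pt', rpow_exp hTp, ← hW, one_pow, div_one]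
    refine k1 n ?_ t ht
    refine le_trans ?_ (hCm.trans hn)
    nlinarith

/-- (4), one window -/
lemma r_one {h : ℝ} (hh0 : 0 < h) : ∃ K c T₀ : ℝ, 0 < K ∧ 0 < c ∧ ∀ T : ℝ, T₀ ≤ T →
    ¬ Approx T h (c * Real.log T) (T ^ (-K)) := by
  obtain ⟨K, ν, T0, hK, hν, hT0, H⟩ := z_one hh0
  refine ⟨K, ν / 9, T0, hK, by positivity, fun T hT => ?_⟩
  have hW : 0 ≤ Real.log T := Real.log_nonneg (by linarith)
  rintro ⟨S, p, h1, h2, h3⟩
  refine H T hT (xs S p) ((xs_dbl (by positivity) h1 h2).mono (le_of_eq ?_)) fun t ht => ?_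
  · ring
  · have h4 := h3 t ht
    rw [pt', rpow_exp (by linarith)] at h4
    exact h4

/-- (4), long windows -/
lemma r_long {h K : ℝ} (hh0 : 0 < h) (hh1 : h ≤ 1) (hK : 0 < K) : ∃ c R T₀ : ℝ, 0 < c ∧ 0 < R ∧
    ∀ T : ℝ, T₀ ≤ T → ∃ y : ℝ, |y - T| ≤ R ∧ ¬ Approx y h (c * Real.log T) (T ^ (-K)) := by
  obtain ⟨ν, R, T0, hν, hR, hT0, H⟩ := z_long hh0 hh1 hK
  refine ⟨ν / 9, R, T0, by positivity, hR, fun T hT => ?_⟩
  have hW : 0 ≤ Real.log T := Real.log_nonneg (by linarith)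
  obtain ⟨y, hy, hg⟩ := H T hT
  refine ⟨y, hy, ?_⟩
  rintro ⟨S, p, h1, h2, h3⟩
  refine hg (xs S p) ((xs_dbl (by positivity) h1 h2).mono (le_of_eq ?_)) fun t ht => ?_
  · ring
  · have h4 := h3 t ht
    rw [pt', rpow_exp (by linarith)] at h4
    exact h4

theorem result :
    (∀ h : ℝ, 0 < h → h ≤ 1 → (Lindelof ↔ ∀ ε : ℝ, 0 < ε → ∃ T₀ : ℝ, ∀ T : ℝ, T₀ ≤ T →
      Approx T h (ε * Real.log T) (T ^ ε))) ∧
    (∀ n : ℝ → ℕ, (∀ ε : ℝ, 0 < ε → ∃ T₀ : ℝ, ∀ T : ℝ, T₀ ≤ T → (n T : ℝ) ≤ ε * Real.log T) →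
      (Lindelof ↔ ∀ ε : ℝ, 0 < ε → ∃ T₀ : ℝ, ∀ T : ℝ, T₀ ≤ T → DerBound T 1 (n T) (T ^ ε))) ∧
    (∀ h ε : ℝ, 0 < h → h ≤ 1 → 0 < ε → ∃ ν R T₀ : ℝ, 0 < ν ∧ 0 < R ∧ ∀ T : ℝ, T₀ ≤ T →
      (∀ y : ℝ, |y - T| ≤ R → Approx y h (ν * Real.log T) (T ^ ν) ∨
        ∃ n : ℕ, (n : ℝ) ≤ ν * Real.log T ∧ DerBound y h n (T ^ ν)) →
      ‖riemannZeta (1 / 2 + (T : ℂ) * I)‖ ≤ T ^ ε) ∧
    (∀ ε : ℝ, 0 < ε → ∃ ν R T₀ : ℝ, 0 < ν ∧ 0 < R ∧ ∀ T : ℝ, T₀ ≤ T →
      (∀ y : ℝ, |y - T| ≤ R → ‖riemannZeta (1 / 2 + (y : ℂ) * I)‖ ≤ T ^ ν) →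
      ∀ n : ℕ, (n : ℝ) ≤ ν * Real.log T → DerBound T 1 n (T ^ ε)) ∧
    (∀ K : ℝ, 0 < K → ∃ C : ℝ, ∀ T : ℝ, C ≤ T → Approx T 1 (C * Real.log T) (T ^ (-K)) ∧
      ∀ n : ℕ, C * Real.log T ≤ n → DerBound T 1 n (T ^ (-K))) ∧
    (∀ h : ℝ, 0 < h → ∃ K c T₀ : ℝ, 0 < K ∧ 0 < c ∧ ∀ T : ℝ, T₀ ≤ T →
      ¬ Approx T h (c * Real.log T) (T ^ (-K))) ∧
    (∀ h K : ℝ, 0 < h → h ≤ 1 → 0 < K → ∃ c R T₀ : ℝ, 0 < c ∧ 0 < R ∧ ∀ T : ℝ, T₀ ≤ T →
      ∃ y : ℝ, |y - T| ≤ R ∧ ¬ Approx y h (c * Real.log T) (T ^ (-K))) := by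
  refine ⟨fun h hh0 hh1 => ?_, fun n hn => ?_, fun h ε hh0 hh1 hε => ?_, fun ε hε => ?_, fun K hK => r_sharp hK,
    fun h hh0 => r_one hh0, fun h K hh0 hh1 hK => r_long hh0 hh1 hK⟩
  · rw [lin_iff]
    constructor
    · intro H ε hε
      obtain ⟨T₀, hT₀⟩ := H (ε / 2) (by positivity)
      refine ⟨max (T₀ + 1) 5, fun T hT => ?_⟩
      have hT1 := (le_max_left _ _).trans hT
      have hT5 := (le_max_right _ _).trans hT
      have hW : 0 ≤ Real.log T := Real.log_nonneg (by linarith)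
      refine ⟨∅, fun _ => 0, ?_, by simp, fun t ht => ?_⟩
      · rw [Finset.sum_empty]
        positivity
      · rw [Finset.sum_empty, sub_zero, pt', rpow_exp (by linarith)]
        have ht1 := ht.trans hh1
        obtain ⟨g1, g2, g3⟩ := zlog_near (X := 1) (by norm_num) (T := T) (y := t) (by linarith) ht1
        rw [abs_le] at ht1
        refine (hT₀ t (by linarith)).trans (Real.exp_le_exp.2 ?_)
        nlinarith
    · intro H κ hκ
      obtain ⟨ν, R, T₁, hν, hR, hT₁, hH⟩ := r_loc hh0 hh1 hκ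
      obtain ⟨T₂, hT₂⟩ := H (ν / 2) (by positivity)
      refine ⟨max T₁ (max (T₂ + R) (2 * R + 3)), fun T hT => ?_⟩
      have hTa := (le_max_left _ _).trans hT
      have hTb := (le_max_left _ _).trans ((le_max_right _ _).trans hT)
      have hTc := (le_max_right _ _).trans ((le_max_right _ _).trans hT)
      refine hH T hTa fun y hy => Or.inl ?_
      obtain ⟨g1, g2, g3⟩ := zlog_near (X := R) hR.le (T := T) (y := y) hTc hy
      rw [abs_le] at hy
      obtain ⟨S, p, hp1, hp2, hp3⟩ := hT₂ y (by linarith)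
      have h1 : ν / 2 * Real.log y ≤ ν * Real.log T := by nlinarith
      refine ⟨S, p, hp1.trans h1, fun a ha => (hp2 a ha).trans h1, fun t ht => (hp3 t ht).trans ?_⟩
      rw [rpow_exp (by linarith), rpow_exp (by linarith)]
      exact Real.exp_le_exp.2 h1
  · rw [lin_iff]
    constructor
    · intro H ε hε
      obtain ⟨ν, R, T₁, hν, hR, hT₁, hH⟩ := r_cau hε
      obtain ⟨T₂, hT₂⟩ := H (ν / 2) (by positivity)
      obtain ⟨T₃, hT₃⟩ := hn ν hν
      refine ⟨max (max T₁ T₃) (max (T₂ + R) (2 * R + 3)), fun T hT => ?_⟩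
      have hTa := (le_max_left _ _).trans ((le_max_left _ _).trans hT)
      have hTd := (le_max_right _ _).trans ((le_max_left _ _).trans hT)
      have hTb := (le_max_left _ _).trans ((le_max_right _ _).trans hT)
      have hTc := (le_max_right _ _).trans ((le_max_right _ _).trans hT)
      refine hH T hTa (fun y hy => ?_) _ (hT₃ T hTd)
      obtain ⟨g1, g2, g3⟩ := zlog_near (X := R) hR.le (T := T) (y := y) hTc hy
      rw [abs_le] at hy
      refine (hT₂ y (by linarith)).trans (Real.exp_le_exp.2 ?_)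
      nlinarith
    · intro H κ hκ
      obtain ⟨ν, R, T₁, hν, hR, hT₁, hH⟩ := r_loc one_pos le_rfl hκ
      obtain ⟨T₂, hT₂⟩ := H (ν / 2) (by positivity)
      obtain ⟨T₃, hT₃⟩ := hn (ν / 2) (by positivity)
      refine ⟨max T₁ (max (max T₂ T₃ + R) (2 * R + 3)), fun T hT => ?_⟩
      have hTa := (le_max_left _ _).trans hT
      have hTb := (le_max_left _ _).trans ((le_max_right _ _).trans hT)
      have hTc := (le_max_right _ _).trans ((le_max_right _ _).trans hT)
      have hTe := le_max_left T₂ T₃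
      have hTf := le_max_right T₂ T₃
      refine hH T hTa fun y hy => Or.inr ?_
      obtain ⟨g1, g2, g3⟩ := zlog_near (X := R) hR.le (T := T) (y := y) hTc hy
      rw [abs_le] at hy
      have h1 : ν / 2 * Real.log y ≤ ν * Real.log T := by nlinarith
      refine ⟨n y, (hT₃ y (by linarith)).trans h1, fun t ht => ?_⟩
      refine (hT₂ y (by linarith) t ht).trans ?_
      apply mul_le_mul_of_nonneg_left _ (by positivity)
      rw [rpow_exp (by linarith), rpow_exp (by linarith)]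
      exact Real.exp_le_exp.2 h1
  · obtain ⟨ν, R, T₀, hν, hR, hT₀, H⟩ := r_loc hh0 hh1 hε
    refine ⟨ν, R, T₀, hν, hR, fun T hT hp => ?_⟩
    rw [pt', rpow_exp (by linarith)]
    exact H T hT hp
  · obtain ⟨ν, R, T₀, hν, hR, hT₀, H⟩ := r_cau hε
    refine ⟨ν, R, T₀, hν, hR, fun T hT hp => H T hT fun y hy => ?_⟩
    have h1 := hp y hy
    rwa [pt', rpow_exp (by linarith)] at h1

end Pool.Agent.Results.MP_4e5e8a_nt.ExponentialPolynomials
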