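import Pool.Agent.Q240.LH.Final

/-!
# MP_4e5e8a_nt: the Lindelof hypothesis and zeros to the left of the critical line

By Backlund the Lindelof hypothesis holds if and only if zeta has `o(log T)` zeros with
`Re s > 1/2 + ε` and `T ≤ Im s ≤ T + 1`. Here the same is proved for the zeros to the LEFT of the line of
each function `F = P(D) ζ (s) + ∑ c(l) exp (-l s)` (`D = d/ds`, `P` a nonzero polynomial, a finite sum with
real `l`), for instance each derivative of zeta, or `ζ - a`, together with a local form: near height `T` the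
values of zeta on `Re s = 1 - α` are at most `T ^ o(1)` if and only if near height `T` the function `F` has
`o(log T)` zeros with `0 ≤ Re s ≤ α - o(1)`, up to bounded changes of the windows.
-/

set_option autoImplicit false

open Polynomial

namespace Pool.Agent.Results.MP_4e5e8a_nt.LeftZeros

/-- The Lindelof bound for zeta on the line `Re s = σ`; for `σ = 1/2` this is Q1. -/
def LindelofAt (σ : ℝ) : Prop := ∀ ε : ℝ, 0 < ε → ∃ C : ℝ, ∀ t : ℝ,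
  ‖riemannZeta (σ + t * Complex.I)‖ ≤ C * (1 + |t|) ^ ε

/-- `P(D) ζ (s) + ∑ c(l) exp (-l s)`, where `D = d/ds` and `l` runs over the finite set `S` of reals. -/
noncomputable def F (P : ℂ[X]) (S : Finset ℝ) (c : ℝ → ℂ) (s : ℂ) : ℂ :=
  ∑ i ∈ Finset.range (P.natDegree + 1), P.coeff i * iteratedDeriv i riemannZeta s +
    ∑ l ∈ S, c l * Complex.exp (-(l * s))

/-- The number of zeros of `f`, with multiplicity, with `0 ≤ Re s ≤ a` and `|Im s - T| ≤ h`. -/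
noncomputable def left (f : ℂ → ℂ) (a T h : ℝ) : ℕ :=
  ∑ᶠ s ∈ {s : ℂ | f s = 0 ∧ 0 ≤ s.re ∧ s.re ≤ a ∧ |s.im - T| ≤ h}, analyticOrderNatAt f s

/-- `left (F P S c) a T h ≤ b`, and the set of zeros which `left` counts is finite. -/
def AtMost (P : ℂ[X]) (S : Finset ℝ) (c : ℝ → ℂ) (a T h b : ℝ) : Prop :=
  {s : ℂ | F P S c s = 0 ∧ 0 ≤ s.re ∧ s.re ≤ a ∧ |s.im - T| ≤ h}.Finite ∧
    (left (F P S c) a T h : ℝ) ≤ b

theorem fin (P : ℂ[X]) (hP : P ≠ 0) (S : Finset ℝ) (c : ℝ → ℂ) (a T h : ℝ) (hT : h < T) :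
    {s : ℂ | F P S c s = 0 ∧ 0 ≤ s.re ∧ s.re ≤ a ∧ |s.im - T| ≤ h}.Finite := by
  obtain ⟨Z, hZ, -⟩ := Q240.LH.left_set P hP S c a T h hT
  refine Z.finite_toSet.subset fun s hs => ?_
  exact (hZ s).2 hs

theorem rpow_eq (T ε : ℝ) (hT : 0 < T) : Real.exp (ε * Real.log T) = T ^ ε := by
  rw [Real.rpow_def_of_pos hT, mul_comm]

theorem result :
    (∀ (P : ℂ[X]) (S : Finset ℝ) (c : ℝ → ℂ), P ≠ 0 →
      (LindelofAt (1 / 2) ↔ ∀ ε : ℝ, 0 < ε → ∃ T₀ : ℝ, ∀ T : ℝ, T₀ ≤ T →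
        AtMost P S c (1 / 2 - ε) T 1 (ε * Real.log T))) ∧
    (∀ (P : ℂ[X]) (S : Finset ℝ) (c : ℝ → ℂ) (α : ℝ), P ≠ 0 → 0 < α → α ≤ 1 / 2 →
      (LindelofAt (1 - α) ↔ ∀ ε : ℝ, 0 < ε → ∃ T₀ : ℝ, ∀ T : ℝ, T₀ ≤ T →
        AtMost P S c (α - ε) T 1 (ε * Real.log T))) ∧
    (∀ (P : ℂ[X]) (S : Finset ℝ) (c : ℝ → ℂ) (α ε h : ℝ), P ≠ 0 → 0 < α → α ≤ 1 / 2 → 0 < ε → 0 < h →
      ∃ η C T₀ : ℝ, 0 < η ∧ 0 < C ∧ ∀ T : ℝ, T₀ ≤ T → AtMost P S c (α - η) T C (η * Real.log T) →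
        ∀ t : ℝ, |t - T| ≤ h → ‖riemannZeta ((1 - α : ℝ) + t * Complex.I)‖ ≤ T ^ ε) ∧
    (∀ (P : ℂ[X]) (S : Finset ℝ) (c : ℝ → ℂ) (α ε : ℝ), P ≠ 0 → 0 < α → α ≤ 1 / 2 → 0 < ε →
      ∃ η C T₀ : ℝ, 0 < η ∧ 0 < C ∧ ∀ T : ℝ, T₀ ≤ T →
        (∀ t : ℝ, |t - T| ≤ C → ‖riemannZeta ((1 - α : ℝ) + t * Complex.I)‖ ≤ T ^ η) →
        AtMost P S c (α - ε) T 1 (ε * Real.log T)) ∧
    (∀ (P Q : ℂ[X]) (S R : Finset ℝ) (c d : ℝ → ℂ) (α ε : ℝ), P ≠ 0 → Q ≠ 0 → 0 < α → α ≤ 1 / 2 →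
      0 < ε → ∃ η C T₀ : ℝ, 0 < η ∧ 0 < C ∧ ∀ T : ℝ, T₀ ≤ T →
        AtMost P S c (α - η) T C (η * Real.log T) → AtMost Q R d (α - ε) T 1 (ε * Real.log T)) := by
  have h2 : ∀ (P : ℂ[X]) (S : Finset ℝ) (c : ℝ → ℂ) (α : ℝ), P ≠ 0 → 0 < α → α ≤ 1 / 2 →
      (LindelofAt (1 - α) ↔ ∀ ε : ℝ, 0 < ε → ∃ T₀ : ℝ, ∀ T : ℝ, T₀ ≤ T →
        AtMost P S c (α - ε) T 1 (ε * Real.log T)) := by
    intro P S c α hP hα0 hα
    have h0 := Q240.LH.lindelof_iff P hP S c α hα0 hα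
    constructor
    · intro hL ε hε
      obtain ⟨T₀, hT₀⟩ := Filter.eventually_atTop.1 (h0.1 hL ε hε)
      exact ⟨max T₀ 2, fun T hT => ⟨fin P hP S c _ T 1 (by linarith [le_max_right T₀ 2]),
        hT₀ T ((le_max_left _ _).trans hT)⟩⟩
    · intro h
      refine h0.2 fun ε hε => ?_
      obtain ⟨T₀, hT₀⟩ := h ε hε
      exact Filter.eventually_atTop.2 ⟨T₀, fun T hT => (hT₀ T hT).2⟩
  refine ⟨fun P S c hP => ?_, h2, fun P S c α ε h hP hα0 hα hε hh => ?_,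
    fun P S c α ε hP hα0 hα hε => ?_, fun P Q S R c d α ε hP hQ hα0 hα hε => ?_⟩
  · have := h2 P S c (1 / 2) hP (by norm_num) le_rfl
    rwa [show (1 : ℝ) - 1 / 2 = 1 / 2 by norm_num] at this
  · obtain ⟨η, C, T₀, hη, hC, hCT, hm⟩ := Q240.LH.large_zeros P hP S c α ε h hα0 hα hε hh
    refine ⟨η, C, T₀, hη, hC, fun T hT hl t ht => ?_⟩
    have := hm T hT hl.2 t ht
    rwa [Q240.LH.mk_eq, rpow_eq T ε (by linarith)] at this
  · obtain ⟨η, C, T₀, hη, hC, hCT, hm⟩ := Q240.LH.small_few P hP S c α ε hα0 hα hε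
    refine ⟨η, C, max T₀ 2, hη, hC, fun T hT hl => ⟨fin P hP S c _ T 1
      (by linarith [le_max_right T₀ 2]), hm T ((le_max_left _ _).trans hT) fun t ht => ?_⟩⟩
    have := hl t ht
    rwa [Q240.LH.mk_eq, rpow_eq T η (by linarith [le_max_right T₀ 2])]
  · obtain ⟨η, C, T₀, hη, hC, hm⟩ := Q240.LH.transfer P Q hP hQ S R c d α ε hα0 hα hε
    exact ⟨η, C, max T₀ 2, hη, hC, fun T hT hl => ⟨fin Q hQ R d _ T 1
      (by linarith [le_max_right T₀ 2]), hm T ((le_max_left _ _).trans hT) hl.2⟩⟩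

end Pool.Agent.Results.MP_4e5e8a_nt.LeftZeros
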