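import Pool.Agent.Q284.S.Cls

/-!
# In the Selberg class the convexity bound on the critical line is optimal

For a member `F` of degree `d` of the Selberg class the convexity bound is `F(σ + it) ≪ |t|^{(d/2)(1 - σ) + ε}` for
`0 ≤ σ ≤ 1`, that is `|t|^{d/4 + ε}` on the critical line, and the Lindelöf hypothesis is `F(1/2 + it) ≪ |t|^ε`.  We
construct entire members of all large degrees `d ≡ 3 (mod 4)` for which the mean value of `|F(σ + it)|` over EVERY
interval `[T, T + 100 log T]` is as large as `T^{(d/2)(1 - σ) - 11/4}`, up to a logarithm.  So the Lindelöf hypothesis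
fails in the Selberg class in the `t`-aspect, and the exponent `d/4` of the convexity bound cannot be replaced by
`δ d` with any absolute constant `δ < 1/4`.
-/

set_option autoImplicit false

open Complex Filter

namespace Pool.Agent.Results.MP_4e5e8a_nt.LindelofFailsSelberg

open Pool.Agent.Q284.S (IsSelberg FE)

/-- `F` with coefficients `a` is an entire member of the Selberg class of degree `d`, with real coefficients bounded
by `1` in absolute value. -/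
structure Member (a : ℕ → ℂ) (F : ℂ → ℂ) (d : ℕ) : Prop where
  /-- the axioms of the Selberg class -/
  sel : IsSelberg a F
  /-- the functional equation, with degree `d = 2 ∑ λ_j` -/
  deg : ∃ (Q : ℝ) (k : ℕ) (lam : Fin k → ℝ) (mu : Fin k → ℂ) (ω : ℂ), FE F Q lam mu ω ∧ 2 * ∑ j, lam j = d
  /-- `F` is entire -/
  ent : Differentiable ℂ F
  /-- real coefficients, bounded by `1` -/
  real : ∀ n : ℕ, (a n).im = 0 ∧ ‖a n‖ ≤ 1

/-- **The Lindelöf hypothesis and every bound `F(1/2 + it) ≪ |t|^{δ d}` with `δ < 1/4` fail in the Selberg class.** -/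
theorem result :
    -- (1) for all large `d ≡ 3 (mod 4)` there is a member whose mean values over all intervals `[T, T + 100 log T]`
    -- are within `T^{11/4} log T` of the convexity bound, on every line `3/(2d) < σ < 1 - 3/(2d)`
    (∃ d₀ : ℕ, ∀ d : ℕ, d₀ ≤ d → d % 4 = 3 → ∃ (a : ℕ → ℂ) (F : ℂ → ℂ), Member a F d ∧
      ∀ σ : ℝ, 3 / (2 * d) < σ → σ < 1 - 3 / (2 * d) → ∃ c T₀ : ℝ, 0 < c ∧ ∀ T : ℝ, T₀ ≤ T →
        c * T ^ ((d : ℝ) / 2 * (1 - σ) - 11 / 4) ≤ ∫ t in T..(T + 100 * Real.log T), ‖F (σ + t * I)‖) ∧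
    -- (2) for every `δ < 1/4` and all large `d ≡ 3 (mod 4)` there is a member for which `F(1/2 + it) / t^{δ d}` is
    -- unbounded on every sequence of intervals `[T, T + 100 log T]`, `T → ∞`
    (∀ δ : ℝ, δ < 1 / 4 → ∃ d₀ : ℕ, ∀ d : ℕ, d₀ ≤ d → d % 4 = 3 → ∃ (a : ℕ → ℂ) (F : ℂ → ℂ), Member a F d ∧
      ∀ K : ℝ, ∃ T₀ : ℝ, ∀ T : ℝ, T₀ ≤ T → ∃ t : ℝ, T ≤ t ∧ t ≤ T + 100 * Real.log T ∧
        K * t ^ (δ * d) < ‖F (1 / 2 + t * I)‖) := by
  have A : ∃ d₀ : ℕ, ∀ d : ℕ, d₀ ≤ d → d % 4 = 3 → ∃ (a : ℕ → ℂ) (F : ℂ → ℂ), Member a F d ∧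
      ∀ σ : ℝ, 3 / (2 * d) < σ → σ < 1 - 3 / (2 * d) → ∃ c T₀ : ℝ, 0 < c ∧ ∀ T : ℝ, T₀ ≤ T →
        c * T ^ ((d : ℝ) / 2 * (1 - σ) - 11 / 4) ≤ ∫ t in T..(T + 100 * Real.log T), ‖F (σ + t * I)‖ := by
    obtain ⟨m₀, hm₀, H⟩ := Pool.Agent.Q284.S.members
    refine ⟨4 * m₀ + 3, fun d hd hd4 => ?_⟩
    obtain ⟨m, hm⟩ : ∃ m : ℕ, d = 4 * m + 3 := ⟨d / 4, by omega⟩
    obtain ⟨S, h0, hdeg, ha, hS⟩ := H m (by omega)
    have hdR : (d : ℝ) = 4 * m + 3 := by rw [hm]; push_cast; rfl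
    refine ⟨S.a, S.G, ⟨Pool.Agent.Q284.S.isSelberg_of_sel S h0 fun n => (ha n).2,
      ⟨S.Q, S.r, S.lam, S.μ, S.ω, Pool.Agent.Q284.S.fe_of_sel S h0, ?_⟩, S.diff, ha⟩, fun σ h1 h2 => ?_⟩
    · have : S.deg = 2 * ∑ j, S.lam j := rfl
      rw [← this, hdeg, hdR]
    · rw [hdR] at h1 h2
      obtain ⟨c, hc, hT⟩ := hS σ h1 h2
      obtain ⟨T₀, hT₀⟩ := eventually_atTop.1 hT
      refine ⟨c, T₀, hc, fun T h => ?_⟩
      rw [hdR]
      exact hT₀ T h
  refine ⟨A, fun δ hδ => ?_⟩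
  obtain ⟨d₀, H⟩ := A
  obtain ⟨δ', hδ'⟩ : ∃ δ' : ℝ, δ' = max δ 0 := ⟨_, rfl⟩
  have hδ1 : δ ≤ δ' := by rw [hδ']; exact le_max_left _ _
  have hδ0 : 0 ≤ δ' := by rw [hδ']; exact le_max_right _ _
  have hδ4 : δ' < 1 / 4 := by rw [hδ']; exact max_lt hδ (by norm_num)
  refine ⟨max (max d₀ 4) ⌈5 / (1 / 4 - δ')⌉₊, fun d hd hd4 => ?_⟩
  have hd0 : d₀ ≤ d := ((le_max_left _ _).trans (le_max_left _ _)).trans hd
  have hd44 : 4 ≤ d := ((le_max_right _ _).trans (le_max_left _ _)).trans hd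
  have hd5 : 5 / (1 / 4 - δ') ≤ d := (Nat.le_ceil _).trans (by exact_mod_cast (le_max_right _ _).trans hd)
  rw [div_le_iff₀ (by linarith)] at hd5
  have hdR : (4 : ℝ) ≤ d := by exact_mod_cast hd44
  obtain ⟨a, F, hM, hσ⟩ := H d hd0 hd4
  refine ⟨a, F, hM, fun K => ?_⟩
  have h3 : 3 / (2 * (d : ℝ)) < 1 / 2 := by
    rw [div_lt_div_iff₀ (by positivity) (by norm_num)]
    linarith
  obtain ⟨c, T₂, hc, hT⟩ := hσ (1 / 2) h3 (by linarith)
  obtain ⟨p, hp⟩ : ∃ p : ℝ, p = (d : ℝ) / 2 * (1 - 1 / 2) - 11 / 4 := ⟨_, rfl⟩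
  obtain ⟨q, hq⟩ : ∃ q : ℝ, q = δ' * d := ⟨_, rfl⟩
  have hq0 : 0 ≤ q := by rw [hq]; positivity
  have hpq : q + 2 ≤ p := by rw [hp, hq]; nlinarith
  rw [← hp] at hT
  have h4 : ∀ᶠ T : ℝ in atTop, ∃ t : ℝ, T ≤ t ∧ t ≤ T + 100 * Real.log T ∧
      K * t ^ (δ * d) < ‖F (1 / 2 + t * I)‖ := by
    filter_upwards [eventually_ge_atTop T₂, eventually_ge_atTop (Real.exp 1),
      Pool.Agent.Q284.S.log_small 100, eventually_gt_atTop (100 * |K| * 2 ^ q / c), eventually_ge_atTop 1] with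
      T hT2 hTe hlog hTK hT1
    by_contra hcon
    push Not at hcon
    have hTp : 0 < T := by linarith
    have hl1 : 1 ≤ Real.log T := by
      have := Real.log_le_log (Real.exp_pos 1) hTe
      rwa [Real.log_exp] at this
    have h5 := hT T hT2
    have h6 : ∫ t in T..(T + 100 * Real.log T), ‖F (((1 / 2 : ℝ) : ℂ) + t * I)‖ ≤
        ∫ t in T..(T + 100 * Real.log T), |K| * (2 ^ q * T ^ q) := by
      refine intervalIntegral.integral_mono_on (by linarith) ?_ ?_ fun t ht => ?_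
      · exact (hM.ent.continuous.comp (by fun_prop)).norm.intervalIntegrable _ _
      · exact continuous_const.intervalIntegrable _ _
      · have h7 := hcon t ht.1 ht.2
        have h8 : (((1 / 2 : ℝ) : ℂ) + t * I) = 1 / 2 + t * I := by push_cast; rfl
        rw [h8]
        have ht1 : 1 ≤ t := hT1.trans ht.1
        have h9 : t ^ (δ * d) ≤ t ^ q := by
          apply Real.rpow_le_rpow_of_exponent_le ht1
          rw [hq]
          exact mul_le_mul_of_nonneg_right hδ1 (by positivity)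
        have h10 : t ^ q ≤ (2 * T) ^ q := Real.rpow_le_rpow (by linarith) (by linarith [ht.2]) hq0
        rw [Real.mul_rpow (by norm_num) hTp.le] at h10
        calc ‖F (1 / 2 + t * I)‖ ≤ K * t ^ (δ * d) := h7
          _ ≤ |K| * t ^ (δ * d) := mul_le_mul_of_nonneg_right (le_abs_self K) (by positivity)
          _ ≤ |K| * (2 ^ q * T ^ q) := mul_le_mul_of_nonneg_left (h9.trans h10) (abs_nonneg K)
    rw [intervalIntegral.integral_const, smul_eq_mul] at h6
    have h7 : c * T ^ p ≤ 100 * Real.log T * (|K| * (2 ^ q * T ^ q)) := by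
      refine (h5.trans h6).trans (le_of_eq ?_)
      ring
    have h8 : T ^ (q + 2) ≤ T ^ p := Real.rpow_le_rpow_of_exponent_le hT1 hpq
    have h9 : T ^ (q + 2) = T ^ q * T * T := by
      rw [Real.rpow_add hTp, Real.rpow_two]
      ring
    have hTq : 0 < T ^ q := Real.rpow_pos_of_pos hTp _
    have h10 : c * (T ^ q * T * T) ≤ 100 * T * (|K| * (2 ^ q * T ^ q)) := by
      rw [← h9]
      refine (mul_le_mul_of_nonneg_left h8 hc.le).trans (h7.trans ?_)
      have : Real.log T ≤ T := by linarith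
      gcongr
    rw [div_lt_iff₀ hc] at hTK
    have h11 : (100 * |K| * 2 ^ q) * (T * T ^ q) < (T * c) * (T * T ^ q) :=
      mul_lt_mul_of_pos_right hTK (by positivity)
    nlinarith
  obtain ⟨T₁, hT₁⟩ := eventually_atTop.1 h4
  exact ⟨T₁, hT₁⟩

end Pool.Agent.Results.MP_4e5e8a_nt.LindelofFailsSelberg
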